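import Pool.Agent.Lib.MP_144d21_co.X2.H52.Cut2all
import Pool.Agent.Lib.MP_144d21_co.X4.H02.Cri0
import Pool.Agent.Lib.MP_144d21_co.X4.H02.Crit
import Pool.Agent.Lib.MP_144d21_co.X4.H03.Minor
import Pool.Agent.Lib.MP_144d21_co.X4.H05.Bcon
import Pool.Agent.Lib.MP_144d21_co.X4.H05.Conx
import Pool.Agent.Lib.MP_144d21_co.X4.H16.Pev
import Pool.Agent.Lib.MP_144d21_co.X4.H17.Subm
import Pool.Agent.Lib.MP_144d21_co.X4.H17.Tut
import Pool.Agent.Lib.MP_144d21_co.X4.H19.Md
import Pool.Agent.Lib.MP_144d21_co.X4.H20.Colx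
import Pool.Agent.Lib.MP_144d21_co.X4.H30.Cute
import Pool.Agent.Lib.MP_144d21_co.X4.H57.Dv
import Pool.Agent.Lib.MP_144d21_co.X4.H67.Ndc
import Pool.Agent.Lib.MP_144d21_co.X4.H7.Clq
import Pool.Agent.Lib.MP_144d21_co.X4.H75.Nd
import Pool.Agent.Lib.MP_144d21_co.X4.H76.Glp
import Pool.Agent.Lib.MP_144d21_co.X4.H79.Colm
import Pool.Agent.Lib.MP_144d21_co.X4.H93.Pfac

/-!
# MP_144d21_co, project X4: modules put together (helper20)
-/

set_option autoImplicit false

namespace Pool.Agent.Xu.X4.H20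

open Finset Polynomial

theorem bpos' : BposS := X2.H44.bposAll
theorem clq' : ClqS := H7.clq
theorem bcon' : BconS := H05.bcon All.betdc X2.bnn
theorem conx' : ConxS := H05.conx
theorem cute' : CuteS := H30.cute All.betcut H43.cutconn bpos'
theorem subm' : SubmS := H17.subm conx' bcon' cute' X2.bmon
theorem minor' : MinorS := H03.minor conx' bcon' cute' clq'
theorem tut' : TutS := H17.tut
theorem trb' : TrbS := H17.trb tut' All.betdc H43.del2 X2.k4 bpos'
theorem md' : MdS := H19.md dv H43.dich All.betcut H43.cutconn bpos'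
theorem ndc' : NdcS := H67.ndc md' All.betcut H43.cutconn H43.dich
theorem nd' : NdS := H75.nd ndc' trb' dv
theorem colm' : ColmS := H79.colm
theorem crit' : CritS := H2.crit colm' All.glue
theorem cri0' : Cri0S := H2.cri0 colm' All.glue
theorem chb' : ChbS := chb cri0' subm' md'
theorem pfac' : PfacS := H93.pfac
theorem pev' : PevS := H16.pev
theorem glp' : GlpS := H76.glp All.glue All.chiEx All.coef pfac' pev'

/-- Xu's conjecture for `k = 3` for `G[S]` -/
theorem xu3' : Xu3S := fun V _ _ G S a hg =>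
  All.block V G (fun _ => True) a (fun _ _ _ _ => trivial)
    (fun S h2 _ hg => X2.H86.xucore X2.H52.iqall All.corenum V G S a h2 hg) S trivial hg

end Pool.Agent.Xu.X4.H20
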