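import Pool.Agent.Lib.MP_144d21_co.Final

/-!
# MP_144d21_co, project X4: the known members with chordless cycles (from helper52's families)
-/

set_option autoImplicit false

open Finset SimpleGraph

namespace Pool.Agent.Xu.X4.H20

/-- membership in the family -/
def Fam {V : Type} (G : SimpleGraph V) (k : ℕ) (r : ℕ → ℕ) : Prop :=
  ∀ q : ℕ, ((Nat.card (G.Coloring (Fin q)) : ℕ) : ℤ) =
    ∏ i ∈ range (k + 1), ((q : ℤ) - i) ^ (r i)

/-- an induced cycle of length at least `4` -/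
def Hole {V : Type} (G : SimpleGraph V) : Prop :=
  ∃ n, 4 ≤ n ∧ Nonempty (cycleGraph n ↪g G)

lemma induced_four_cycle {V : Type} (G : SimpleGraph V) (u x a c : V) (h1 : G.Adj u x)
    (h2 : G.Adj x a) (h3 : G.Adj a c) (h4 : G.Adj c u) (h5 : ¬ G.Adj u a) (h6 : ¬ G.Adj x c)
    (h7 : u ≠ a) (h8 : x ≠ c) : Nonempty (cycleGraph 4 ↪g G) := by
  have h5' : ¬ G.Adj a u := fun h => h5 h.symm
  have h6' : ¬ G.Adj c x := fun h => h6 h.symm
  have hc : ∀ i j : Fin 4, (cycleGraph 4).Adj i j ↔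
      (i, j) ∈ [((0 : Fin 4), (1 : Fin 4)), (1, 0), (1, 2), (2, 1), (2, 3), (3, 2), (3, 0),
        (0, 3)] := by
    intro i j
    rw [cycleGraph_adj]
    revert i j
    decide
  have key : ∀ i j : Fin 4, G.Adj (![u, x, a, c] i) (![u, x, a, c] j) ↔
      (cycleGraph 4).Adj i j := by
    intro i j
    rw [hc]
    fin_cases i <;> fin_cases j <;>
      simp [h1, h2, h3, h4, h1.symm, h2.symm, h3.symm, h4.symm, h5, h6, h5', h6']
  have hinj : Function.Injective ![u, x, a, c] := by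
    intro i j h
    fin_cases i <;> fin_cases j <;>
      simp [h7, h8, h1.ne, h2.ne, h3.ne, h4.ne, h7.symm, h8.symm, h1.ne', h2.ne', h3.ne',
        h4.ne'] at h ⊢
  exact ⟨⟨⟨![u, x, a, c], hinj⟩, key _ _⟩⟩

theorem exists_chordless (k l β s t : ℕ) (p a : Fin l → ℕ) (hs : 1 ≤ s) (ht : 1 ≤ t)
    (hp : ∀ i, 1 ≤ p i) (hpa : ∀ i, p i + a i ≤ β)
    (hst : s * t = ∑ i, p i * a i) (hk : β + s + t + ∑ i, a i ≤ k + 1)
    (r : ℕ → ℕ)
    (hr : ∀ j ≤ k, 1 + (if j = β then l - 1 else 0) + #{i : Fin l | β < j + p i ∧ j < β} +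
      (if j = β + s then 1 else 0) + (if j = β + t then 1 else 0) ≤ r j) :
    ∃ (V : Type) (_ : Fintype V) (G : SimpleGraph V), Fam G k r ∧ Hole G := by
  classical
  obtain ⟨ρ, hρ⟩ := Nat.exists_eq_add_of_le hk
  have hr' : ∀ j ≤ k, 1 + Lib.MP_144d21_co.expo β s t p j ≤ r j := by
    intro j hj
    have := hr j hj
    unfold Lib.MP_144d21_co.expo
    omega
  have hW : Fintype.card (Lib.MP_144d21_co.WT l (β + s + t) ρ a) = k + 1 := by
    rw [Lib.MP_144d21_co.card_WT]
    omega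
  have hSex : ∀ j : Fin (k + 1), ∃ S : Finset (Lib.MP_144d21_co.WT l (β + s + t) ρ a),
      #S = j.1 := by
    intro j
    obtain ⟨S, -, hS⟩ := Finset.exists_subset_card_eq
      (s := (univ : Finset (Lib.MP_144d21_co.WT l (β + s + t) ρ a))) (n := j.1)
      (by rw [Finset.card_univ, hW]; omega)
    exact ⟨S, hS⟩
  choose S hS using hSex
  refine ⟨_, inferInstance, Lib.MP_144d21_co.graph
    (Lib.MP_144d21_co.setC (β + s + t) ρ a)
    (Lib.MP_144d21_co.setA (β + s + t) ρ β p a) p S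
    (fun j : Fin (k + 1) => r j - (1 + Lib.MP_144d21_co.expo β s t p j)), ?_, ?_⟩
  · intro q
    apply Lib.MP_144d21_co.count_eq k β s t p a hs ht hp hpa hst ρ (by omega) S hS
    intro j
    have := hr' j (by omega)
    omega
  · obtain ⟨i, hi⟩ : ∃ i, 1 ≤ a i := by
      by_contra h
      push Not at h
      have h0 : ∑ i, p i * a i = 0 :=
        Finset.sum_eq_zero fun i _ => by
          have := h i
          have h1 : a i = 0 := by omega
          rw [h1, mul_zero]
      have h1 : 1 ≤ s * t := Nat.mul_pos hs ht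
      omega
    have hβ := hpa i
    have hpi := hp i
    refine ⟨4, le_rfl, induced_four_cycle _ (.inl (.inr ())) (.inr (.inl ⟨i, ⟨0, by omega⟩⟩))
      (.inl (.inl (.inr (.inl ⟨i, ⟨0, by omega⟩⟩))))
      (.inl (.inl (.inl ⟨β + s + t - 1, by omega⟩))) ?_ ?_ ?_ ?_ ?_ ?_ ?_ ?_⟩
    · exact trivial
    · change _ ∈ Lib.MP_144d21_co.setA (β + s + t) ρ β p a i
      rw [Lib.MP_144d21_co.setA, Finset.mem_filter]
      exact ⟨Finset.mem_univ _, decide_eq_true rfl⟩
    · change _ ≠ _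
      simp
    · change _ ∈ Lib.MP_144d21_co.setC (β + s + t) ρ a
      simp [Lib.MP_144d21_co.setC]
    · change ¬ (_ ∈ Lib.MP_144d21_co.setC (β + s + t) ρ a)
      simp [Lib.MP_144d21_co.setC]
    · change ¬ (_ ∈ Lib.MP_144d21_co.setA (β + s + t) ρ β p a i)
      rw [Lib.MP_144d21_co.setA, Finset.mem_filter]
      rintro ⟨-, h⟩
      have h' : β + s + t - 1 + p i + a i < β := of_decide_eq_true h
      omega
    · simp
    · simp

/-- `r j ≥ 3` for some `j` with `3 ≤ j < k`: some member has a chordless cycle (known) -/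
theorem exists_of_three (k j : ℕ) (hj : 3 ≤ j) (hjk : j < k) (r : ℕ → ℕ)
    (hr : ∀ i ≤ k, 1 ≤ r i) (h3 : 3 ≤ r j) :
    ∃ (V : Type) (_ : Fintype V) (G : SimpleGraph V), Fam G k r ∧ Hole G := by
  obtain ⟨b, rfl⟩ : ∃ b, j = b + 1 := ⟨j - 1, by omega⟩
  refine exists_chordless k 1 b 1 1 (fun _ => 1) (fun _ => 1) le_rfl le_rfl (fun _ => le_rfl)
    (fun _ => by omega) (by simp) (by simp; omega) r ?_
  intro i hi
  have h0 : #{x : Fin 1 | b < i + 1 ∧ i < b} = 0 := by
    rw [Finset.card_eq_zero, Finset.filter_eq_empty_iff]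
    intro x _ h
    omega
  rw [h0]
  have := hr i hi
  by_cases h : i = b + 1
  · subst h
    simp only [if_true]
    split_ifs <;> omega
  · simp only [if_neg h]
    split_ifs <;> omega

end Pool.Agent.Xu.X4.H20
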