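import Pool.Agent.Lib.MP_144d21_co.X4.Iface2
import Pool.Agent.Lib.MP_144d21_co.X4.H20.Exist
import Pool.Agent.Lib.MP_144d21_co.XU.H51.Bridge

/-!
# MP_144d21_co, project X4: from the module MAINB to families of graphs (helper20)
-/

set_option autoImplicit false

namespace Pool.Agent.Xu.X4.H20

open Finset Polynomial

/-- the number of colourings is the product: the chromatic polynomial is the product -/
theorem chi_of_fam {V : Type} [Fintype V] [DecidableEq V] (G : SimpleGraph V) (k : ℕ)
    (r : ℕ → ℕ) (h : Fam G k r) : chi G univ = PP k r := by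
  symm
  apply IsChi.eq_chi
  intro q
  rw [← Pool.Agent.Xu.H51.coleq V G q, h q]
  unfold PP
  rw [eval_prod]
  refine prod_congr rfl fun i _ => ?_
  simp

theorem PP_congr {k : ℕ} {r s : ℕ → ℕ} (h : ∀ i ≤ k, r i = s i) : PP k r = PP k s := by
  unfold PP
  refine prod_congr rfl fun i hi => ?_
  rw [h i (by rw [mem_range] at hi; omega)]

/-- all members of the family are chordal -/
theorem no_hole (hM : MainbS) (V : Type) [Fintype V] (G : SimpleGraph V) (k j : ℕ) (r : ℕ → ℕ)
    (hj : 3 ≤ j) (hrj : r j ≤ 2) (h1 : ∀ i, 3 ≤ i → i ≤ k → i ≠ j → r i = 1)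
    (hG : Fam G k r) : ¬ Hole G := by
  classical
  apply Pool.Agent.Xu.H51.no_cycle
  apply hM
  refine ⟨k, fun i => if i ≤ k then r i else 0, j, hj, ?_, ?_, ?_⟩
  · rw [chi_of_fam G k r hG]
    refine PP_congr fun i hi => ?_
    rw [if_pos hi]
  · show (if j ≤ k then r j else 0) ≤ 2
    split_ifs
    · exact hrj
    · omega
  · intro i hi hij
    show (if i ≤ k then r i else 0) ≤ 1
    split_ifs with h
    · rw [h1 i hi h hij]
    · omega

end Pool.Agent.Xu.X4.H20
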