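import Pool.Agent.Lib.MP_144d21_co.X4.Iface2

/-!
# Module STEP1B (helper20)
-/

set_option autoImplicit false

namespace Pool.Agent.Xu.X4.H20

open Finset Polynomial

variable {V : Type} [Fintype V] [DecidableEq V]

theorem twoConn_erase {G : SimpleGraph V} {S : Finset V} {v : V} (h : ThreeConn G S)
    (hv : v ∈ S) : TwoConn G (S.erase v) := by
  obtain ⟨h4, ⟨_, _, h2⟩, h3⟩ := h
  refine ⟨?_, h2 v hv, ?_⟩
  · rw [card_erase_of_mem hv]; omega
  · intro w hw
    rw [mem_erase] at hw
    exact h3 v hv w hw.2 (Ne.symm hw.1)

theorem nb_erase_le {G : SimpleGraph V} {S : Finset V} {v w : V} :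
    (nb G S w).card ≤ (nb G (S.erase v) w).card + 1 := by
  classical
  have h : nb G S w ⊆ insert v (nb G (S.erase v) w) := by
    intro x hx
    rw [mem_nb] at hx
    rw [mem_insert]
    by_cases hxv : x = v
    · exact Or.inl hxv
    · right
      rw [mem_nb]
      exact ⟨mem_erase.2 ⟨hxv, hx.1⟩, hx.2⟩
  exact (card_le_card h).trans (card_insert_le _ _)

omit [Fintype V] in
/-- add a vertex to a clique -/
theorem clq_insert {G : SimpleGraph V} {Q : Finset V} {v : V} (h : Clq G Q)
    (hv : ∀ x ∈ Q, G.Adj v x) : Clq G (insert v Q) := by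
  intro x hx y hy hxy
  rw [mem_insert] at hx hy
  rcases hx with rfl | hx <;> rcases hy with rfl | hy
  · exact absurd rfl hxy
  · exact hv y hy
  · exact (hv x hx).symm
  · exact h x hx y hy hxy

/-- STEP1B -/
theorem step1b (hCrit : CritS) (hChb : ChbS) (hColx : ColxS) (hSubm : SubmS) (hNdc : NdcS)
    (hNd : NdS) (hCkl : CklS) (hDv : DvS) (hDvp : DvpS) : Step1bS := by
  intro V _ _ G S k
  induction k using Nat.strong_induction_on generalizing S with
  | _ k ih =>
  intro hk hS hcol hQ
  obtain ⟨S', hsub, hcol', hS', hcard, hdeg⟩ := hCrit V G S k (by omega) hcol hQ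
  refine lt_of_lt_of_le ?_ (hSubm V G S S' hS hS' hsub)
  obtain ⟨n, rfl⟩ : ∃ n, k = n + 2 := ⟨k - 2, by omega⟩
  have hn : 2 ≤ n := by omega
  have e1 : n + 2 - 1 = n + 1 := rfl
  rw [e1]
  have hf : ((n + 1).factorial : ℤ) = ((n : ℤ) + 1) * (n.factorial : ℤ) := by
    rw [Nat.factorial_succ]; push_cast; ring
  have hf1 : (1 : ℤ) ≤ (n.factorial : ℤ) := by exact_mod_cast Nat.factorial_pos n
  have hf2 : (1 : ℤ) ≤ ((n + 1).factorial : ℤ) := by exact_mod_cast Nat.factorial_pos (n + 1)
  have hn' : (2 : ℤ) ≤ (n : ℤ) := by exact_mod_cast hn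
  push_cast
  by_cases h3 : ThreeConn G S'
  · obtain ⟨v, hv, hv3⟩ := hCkl V G S' h3 (fun v hv => by have := hdeg v hv; omega)
    have hdv := hDv V G S' v h3 hv
    by_cases hu : ∃ x ∈ S', x ≠ v ∧ ¬ G.Adj v x
    · obtain ⟨x, hx, hxv, hadj⟩ := hu
      have hxH : x ∈ S'.erase v := mem_erase.2 ⟨hxv, hx⟩
      have hdx : n + 2 ≤ (nb G (S'.erase v) x).card := by
        have h2 : nb G (S'.erase v) x = nb G S' x := by
          ext y
          rw [mem_nb, mem_nb, mem_erase]
          constructor
          · rintro ⟨⟨_, h⟩, h'⟩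
            exact ⟨h, h'⟩
          · rintro ⟨h, h'⟩
            refine ⟨⟨?_, h⟩, h'⟩
            rintro rfl
            exact hadj h'.symm
        rw [h2]
        exact hdeg x hx
      have hdvx := hDv V G (S'.erase v) x hv3 hxH
      have hT : TwoConn G ((S'.erase v).erase x) := twoConn_erase hv3 hxH
      have hc2 : cols G ((S'.erase v).erase x) (n + 1) = ∅ :=
        (hColx V G S' (n + 1) v hv hcol').2 x hx hxv hadj
      have hb := hChb V G _ (n + 1) (by omega) hT hc2
      have e2 : n + 1 - 1 = n := rfl
      rw [e2] at hb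
      have hH : ((n + 1).factorial : ℤ) ≤ bet G (S'.erase v) := by
        have hdx' : (n : ℤ) + 2 ≤ ((nb G (S'.erase v) x).card : ℤ) := by exact_mod_cast hdx
        rw [hf]
        calc ((n : ℤ) + 1) * (n.factorial : ℤ)
            ≤ ((n : ℤ) + 1) * bet G ((S'.erase v).erase x) :=
              mul_le_mul_of_nonneg_left hb (by linarith)
          _ ≤ (((nb G (S'.erase v) x).card : ℤ) - 1) * bet G ((S'.erase v).erase x) :=
              mul_le_mul_of_nonneg_right (by linarith) (by linarith)
          _ ≤ bet G (S'.erase v) := hdvx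
      rcases Nat.lt_or_ge (n + 2) (nb G S' v).card with hlt | hge
      · have hlt' : (n : ℤ) + 3 ≤ ((nb G S' v).card : ℤ) := by exact_mod_cast hlt
        calc ((n : ℤ) + 1) * ((n + 1).factorial : ℤ)
            < ((n : ℤ) + 2) * ((n + 1).factorial : ℤ) :=
              mul_lt_mul_of_pos_right (by linarith) (by linarith)
          _ ≤ ((n : ℤ) + 2) * bet G (S'.erase v) :=
              mul_le_mul_of_nonneg_left hH (by linarith)
          _ ≤ (((nb G S' v).card : ℤ) - 1) * bet G (S'.erase v) :=
              mul_le_mul_of_nonneg_right (by linarith) (by linarith)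
          _ ≤ bet G S' := hdv
      · have hdge := hdeg v hv
        have hnc : ¬ Clq G (nb G S' v) := by
          intro hc
          have h5 := clq_insert hc (fun x hx => (mem_nb.1 hx).2)
          have h6 : insert v (nb G S' v) ⊆ S := by
            intro y hy
            rcases mem_insert.1 hy with rfl | hy
            · exact hsub hv
            · exact hsub (mem_nb.1 hy).1
          have h7 := hQ _ h6 h5
          have h8 : v ∉ nb G S' v := fun h => (mem_nb.1 h).2.ne rfl
          rw [card_insert_of_notMem h8] at h7
          omega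
        unfold Clq at hnc
        push Not at hnc
        obtain ⟨a, ha, b, hb', hab, hnab⟩ := hnc
        have hst := hDvp V G S' v a b h3 hv3 hv ha hb' hab hnab
        have hge' : (n : ℤ) + 2 ≤ ((nb G S' v).card : ℤ) := by exact_mod_cast hdge
        calc ((n : ℤ) + 1) * ((n + 1).factorial : ℤ)
            ≤ ((n : ℤ) + 1) * bet G (S'.erase v) :=
              mul_le_mul_of_nonneg_left hH (by linarith)
          _ ≤ (((nb G S' v).card : ℤ) - 1) * bet G (S'.erase v) :=
              mul_le_mul_of_nonneg_right (by linarith) (by linarith)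
          _ < bet G S' := hst
    · push Not at hu
      -- `v` is adjacent to all others
      have hdegv : (nb G S' v).card = S'.card - 1 := by
        rw [← card_erase_of_mem hv]
        congr 1
        ext y
        rw [mem_nb, mem_erase]
        constructor
        · rintro ⟨h, h'⟩
          exact ⟨h'.ne.symm, h⟩
        · rintro ⟨h, h'⟩
          exact ⟨h', hu y h' h⟩
      have hdeg' : (n : ℤ) + 4 ≤ ((nb G S' v).card : ℤ) := by
        have : n + 4 ≤ (nb G S' v).card := by omega
        exact_mod_cast this
      have hT := twoConn_erase h3 hv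
      have hcE : (S'.erase v).card = S'.card - 1 := card_erase_of_mem hv
      rcases Nat.lt_or_ge n 3 with hn3 | hn3
      · -- `k = 4`
        have hn2 : n = 2 := by omega
        subst hn2
        have hnd := hNd V G (S'.erase v) 3 le_rfl hT (by omega) (fun w hw => by
          have h1 := hdeg w (mem_of_mem_erase hw)
          have h2 := nb_erase_le (G := G) (S := S') (v := v) (w := w)
          omega)
        have e3 : (2 : ℤ) * ((3 - 1).factorial : ℤ) = 4 := by norm_num [Nat.factorial]
        rw [e3] at hnd
        have e4 : ((2 + 1).factorial : ℤ) = 6 := by norm_num [Nat.factorial]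
        rw [e4]
        push_cast at hdeg' ⊢
        calc ((2 : ℤ) + 1) * 6 < 5 * 4 := by norm_num
          _ ≤ 5 * bet G (S'.erase v) := mul_le_mul_of_nonneg_left hnd (by norm_num)
          _ ≤ (((nb G S' v).card : ℤ) - 1) * bet G (S'.erase v) :=
              mul_le_mul_of_nonneg_right (by linarith) (by linarith)
          _ ≤ bet G S' := hdv
      · -- induction
        have hih := ih (n + 1) (by omega) (S'.erase v) (by omega) hT
          (hColx V G S' (n + 1) v hv hcol').1 (by
            intro Q hQ1 hQ2
            have h5 := clq_insert hQ2 (fun x hx => hu x (mem_of_mem_erase (hQ1 hx))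
              (mem_erase.1 (hQ1 hx)).1)
            have h6 : insert v Q ⊆ S := by
              intro y hy
              rcases mem_insert.1 hy with rfl | hy
              · exact hsub hv
              · exact hsub (mem_of_mem_erase (hQ1 hy))
            have h7 := hQ _ h6 h5
            have h8 : v ∉ Q := fun h => (mem_erase.1 (hQ1 h)).1 rfl
            rw [card_insert_of_notMem h8] at h7
            omega)
        have e5 : n + 1 - 1 = n := rfl
        rw [e5] at hih
        have hb0 : (0 : ℤ) ≤ bet G (S'.erase v) := by
          refine le_trans ?_ hih.le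
          positivity
        rw [hf]
        calc ((n : ℤ) + 1) * (((n : ℤ) + 1) * (n.factorial : ℤ))
            ≤ ((n : ℤ) + 3) * ((n : ℤ) * (n.factorial : ℤ)) := by nlinarith
          _ < ((n : ℤ) + 3) * bet G (S'.erase v) :=
              mul_lt_mul_of_pos_left hih (by linarith)
          _ ≤ (((nb G S' v).card : ℤ) - 1) * bet G (S'.erase v) :=
              mul_le_mul_of_nonneg_right (by linarith) hb0
          _ ≤ bet G S' := hdv
  · have h := hNdc V G S' (n + 2) hS' (by omega) h3 hdeg
    rw [e1] at h
    refine lt_of_lt_of_le ?_ h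
    refine mul_lt_mul_of_pos_right ?_ (by linarith)
    rw [hf]
    have hf3 : (2 : ℤ) ≤ (n.factorial : ℤ) := by
      have h6 : (2).factorial ≤ n.factorial := Nat.factorial_le hn
      have h7 : (2).factorial = 2 := rfl
      rw [h7] at h6
      exact_mod_cast h6
    nlinarith

end Pool.Agent.Xu.X4.H20
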