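import Pool.Agent.Lib.MP_144d21_co.X4.H20.AllA
import Pool.Agent.Lib.MP_144d21_co.X4.H20.Step1b
import Pool.Agent.Lib.MP_144d21_co.X4.H20.Fin4
import Pool.Agent.Lib.MP_144d21_co.X4.H38.Numb
import Pool.Agent.Lib.MP_144d21_co.X4.H43.Mainb
import Pool.Agent.Lib.MP_144d21_co.X4.H57.Ckl
import Pool.Agent.Lib.MP_144d21_co.X4.H57.Dvp
import Pool.Agent.Lib.MP_144d21_co.XU.H87.Chg

/-!
# MP_144d21_co, project X4: second part put together (helper20)
-/

set_option autoImplicit false

namespace Pool.Agent.Xu.X4.H20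

open Finset Polynomial

theorem numb' : NumbS := H38.numb pev' All.chiEx All.coef All.alpha bpos'

theorem step1b' : Step1bS :=
  step1b crit' chb' colx subm' ndc' nd' X4.ckl dv (X4.dvp bpos')

/-- a graph with chromatic polynomial `∏ (x - j) ^ s j`, `s j ≤ 1` for `j ≥ 3` except that one
of these exponents may be `2`, has no chordless cycle -/
theorem mainb' : MainbS := mainb glp' H87.chg xu3' numb' step1b' clq' minor'

end Pool.Agent.Xu.X4.H20
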