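import Pool.Agent.Lib.MP_144d21_co.X4.Iface2

/-!
# Modules COLX and CHB (helper20)
-/

set_option autoImplicit false

namespace Pool.Agent.Xu.X4.H20

open Finset Polynomial

variable {V : Type} [Fintype V] [DecidableEq V]

/-- the vertices of a stable set `N` get a new colour -/
theorem new_colour {G : SimpleGraph V} {S N : Finset V} {k : ℕ} {c : V → ℕ} (hN : N ⊆ S)
    (hst : ∀ x ∈ N, ∀ y ∈ N, ¬ G.Adj x y) (hc : c ∈ cols G (S \ N) k) :
    (fun x => if x ∈ N then k else c x) ∈ cols G S (k + 1) := by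
  rw [mem_cols] at hc ⊢
  obtain ⟨h1, h2, h3⟩ := hc
  refine ⟨fun x hx => ?_, fun x hx => ?_, fun x hx y hy hxy => ?_⟩
  · show (if x ∈ N then k else c x) < k + 1
    by_cases h : x ∈ N
    · rw [if_pos h]; omega
    · rw [if_neg h]
      have := h1 x (mem_sdiff.2 ⟨hx, h⟩)
      omega
  · show (if x ∈ N then k else c x) = 0
    have h : x ∉ N := fun h => hx (hN h)
    rw [if_neg h]
    exact h2 x fun h' => hx (mem_sdiff.1 h').1
  · show (if x ∈ N then k else c x) ≠ if y ∈ N then k else c y
    by_cases hxN : x ∈ N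
    · have hyN : y ∉ N := fun h => hst x hxN y h hxy
      rw [if_pos hxN, if_neg hyN]
      have := h1 y (mem_sdiff.2 ⟨hy, hyN⟩)
      omega
    · rw [if_neg hxN]
      by_cases hyN : y ∈ N
      · rw [if_pos hyN]
        have := h1 x (mem_sdiff.2 ⟨hx, hxN⟩)
        omega
      · rw [if_neg hyN]
        exact h3 x (mem_sdiff.2 ⟨hx, hxN⟩) y (mem_sdiff.2 ⟨hy, hyN⟩) hxy

/-- COLX -/
theorem colx : ColxS := by
  intro V _ _ G S k v hv hS
  have key : ∀ N : Finset V, N ⊆ S → (∀ x ∈ N, ∀ y ∈ N, ¬ G.Adj x y) →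
      cols G (S \ N) k = ∅ := by
    intro N hN hst
    rw [← Finset.not_nonempty_iff_eq_empty]
    rintro ⟨c, hc⟩
    have := new_colour hN hst hc
    rw [hS] at this
    exact Finset.notMem_empty _ this
  refine ⟨?_, fun x hx hxv hadj => ?_⟩
  · rw [← sdiff_singleton_eq_erase]
    refine key {v} (singleton_subset_iff.2 hv) ?_
    intro a ha b hb
    rw [mem_singleton] at ha hb
    rw [ha, hb]
    exact G.loopless.irrefl v
  · have he : (S.erase v).erase x = S \ {v, x} := by
      ext t
      simp only [mem_erase, mem_sdiff, mem_insert, mem_singleton]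
      tauto
    rw [he]
    refine key {v, x} ?_ ?_
    · intro t ht
      rw [mem_insert, mem_singleton] at ht
      rcases ht with rfl | rfl
      · exact hv
      · exact hx
    · intro a ha b hb
      rw [mem_insert, mem_singleton] at ha hb
      rcases ha with rfl | rfl <;> rcases hb with rfl | rfl
      · exact G.loopless.irrefl _
      · exact hadj
      · exact fun h => hadj h.symm
      · exact G.loopless.irrefl _

/-- CHB -/
theorem chb (hCri : Cri0S) (hSub : SubmS) (hMd : MdS) : ChbS := by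
  intro V _ _ G S k hk h2 hS
  obtain ⟨S', hS'S, -, hT, hc, hd⟩ := hCri V G S k hk hS
  obtain ⟨x, hx⟩ := hT.2.1.1
  obtain ⟨a, ha, b, hb, hba, hab⟩ := hT.2.1.2 {x} (singleton_subset_iff.2 hx)
    (singleton_nonempty x) (by
      intro h
      rw [← h, card_singleton] at hc
      omega)
  have haS : a ∈ S' := by rw [mem_singleton.1 ha]; exact hx
  exact (hMd V G S' a b k hT (by omega) haS hb hab fun v hv _ _ => hd v hv).trans
    (hSub V G S S' h2 hT hS'S)

end Pool.Agent.Xu.X4.H20
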